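import Pool.Agent.H320.TF.Order

/-!
helper320: the closure properties for unit groups of orders.
-/

set_option autoImplicit false

namespace Pool.Agent.H320.TF

open Pool.Agent.H371.SA Pool.Agent.H371.SB
open scoped TensorProduct

theorem rtfn_comm (N : Type) [CommGroup N] (h : ∀ (x : N) (m : ℕ), m ≠ 0 → x ^ m = 1 → x = 1) :
    RTFN N := by
  intro x hx
  refine ⟨⊥, inferInstance, by simpa using hx, ?_, ?_⟩
  · infer_instance
  · intro y m hm hy
    obtain ⟨z, rfl⟩ := QuotientGroup.mk_surjective y
    rw [← QuotientGroup.mk_pow, QuotientGroup.eq_one_iff, Subgroup.mem_bot] at hy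
    rw [h z m hm hy, QuotientGroup.mk_one]

section order
variable {R : Type} [Ring R] {N : ℕ} (e : R ≃+ (Fin N → ℤ))

/-- the abelianization of the additive group -/
noncomputable def abR : Abelianization (Multiplicative R) ≃* Multiplicative (Fin N → ℤ) :=
  (Abelianization.equivOfComm (H := Multiplicative R)).symm.trans (AddEquiv.toMultiplicative e)

theorem abR_of (x : Multiplicative R) :
    Multiplicative.toAdd (abR e (Abelianization.of x)) = e (Multiplicative.toAdd x) := by
  have : (Abelianization.equivOfComm (H := Multiplicative R)).symm (Abelianization.of x) = x := by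
    rw [MulEquiv.symm_apply_eq]
    rfl
  change Multiplicative.toAdd (AddEquiv.toMultiplicative e
    ((Abelianization.equivOfComm (H := Multiplicative R)).symm (Abelianization.of x))) = _
  rw [this]
  rfl

include e in
theorem rtfn_R : RTFN (Multiplicative R) := by
  apply rtfn_comm
  intro x m hm hx
  have h1 : m • Multiplicative.toAdd x = 0 := hx
  have h2 : m • e (Multiplicative.toAdd x) = 0 := by rw [← map_nsmul, h1, map_zero]
  have h3 : e (Multiplicative.toAdd x) = 0 := by
    funext i
    have := congrFun h2 i
    rw [Pi.smul_apply, nsmul_eq_mul, Pi.zero_apply] at this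
    rcases mul_eq_zero.1 this with h | h
    · exact absurd (by exact_mod_cast h) hm
    · rw [h]; rfl
  have h4 : Multiplicative.toAdd x = 0 := by
    apply e.injective
    rw [h3, map_zero]
  exact h4

/-- the action of the units by left multiplication -/
noncomputable def lmul : Rˣ →* MulAut (Multiplicative R) where
  toFun u :=
    { toFun := fun x => Multiplicative.ofAdd ((u : R) * Multiplicative.toAdd x)
      invFun := fun x => Multiplicative.ofAdd (((u⁻¹ : Rˣ) : R) * Multiplicative.toAdd x)
      left_inv := fun x => by simp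
      right_inv := fun x => by simp
      map_mul' := fun x y => by
        rw [toAdd_mul, mul_add, ofAdd_add] }
  map_one' := by ext x; simp
  map_mul' u v := by ext x; simp [mul_assoc]

theorem lmul_apply (u : Rˣ) (x : Multiplicative R) :
    Multiplicative.toAdd (lmul u x) = (u : R) * Multiplicative.toAdd x := rfl

theorem lmul_injective : Function.Injective (lmul (R := R)) := by
  intro u v h
  have h1 := congrArg (fun f : MulAut (Multiplicative R) =>
    Multiplicative.toAdd (f (Multiplicative.ofAdd (1 : R)))) h
  simp only [lmul_apply, toAdd_ofAdd, mul_one] at h1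
  exact Units.ext h1

theorem lm_spec (r x : R) : e (r * x) = (lm e r).mulVec (e x) := by
  have h := LinearMap.toMatrix_mulVec_repr (bas e) (bas e) (LinearMap.mulLeft ℤ r) x
  have h1 : ∀ y : R, (⇑((bas e).repr y) : Fin N → ℤ) = e y := fun y => by
    funext i
    rfl
  rw [h1, h1, LinearMap.mulLeft_apply] at h
  exact h.symm

include e in
theorem CR.order (hN : Odd N)
    (hdom : ∀ (p : ℕ) [Fact p.Prime], p ≤ N + 1 → NoZeroDivisors (ℤ_[p] ⊗[ℤ] R))
    {G : Type} [Group G] (φ : G →* Rˣ) (hφ : Function.Injective φ)
    (hdet : ∀ g, LinearMap.det (LinearMap.mulLeft ℤ ((φ g : Rˣ) : R)) = 1) : CR G 1 := by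
  have hM : ∀ g x, Multiplicative.toAdd (abR e (Abelianization.of ((lmul.comp φ) g x))) =
      (lm e ((φ g : Rˣ) : R)).mulVec (Multiplicative.toAdd (abR e (Abelianization.of x))) := by
    intro g x
    rw [abR_of, abR_of, MonoidHom.comp_apply, lmul_apply, lm_spec]
  have hinj : Function.Injective (lmul.comp φ) := lmul_injective.comp hφ
  refine CR.of_denom (n := N) (fun g => lm e ((φ g : Rˣ) : R)) ⟨one_pos, fun p _ hp => Or.inl ?_⟩
    (fun p _ h => GR.act (abR e) p (rtfn_R e) (lmul.comp φ) hinj _ hM h)
    (fun p _ => Pool.Agent.H371.SB.GR.aut p (abR e) (rtfn_R e) (lmul.comp φ) hinj)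
  exact noTorsion_order e p hN (hdom p hp) (fun g => ((φ g : Rˣ) : R)) hdet

end order

end Pool.Agent.H320.TF
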