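import Pool.Agent.H320.TF.Base

/-!
helper320: actions on residually torsion-free nilpotent groups and outer actions on free groups,
when the closure of the image in `GL_n(ℤ_p)` has no element of order `p`.
-/

set_option autoImplicit false

namespace Pool.Agent.H320.TF

open Pool.Agent.H371.SA Pool.Agent.H371.SB
open Pool.Agent.H371.SA.Nx

/-- the closure in the matrix ring has no element of order `p` -/
def NoTorsion (p : ℕ) [Fact p.Prime] {G : Type} {n : ℕ} (M : G → Matrix (Fin n) (Fin n) ℤ) :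
    Prop :=
  ∀ t ∈ closure (Set.range fun g => (M g).map (Int.cast : ℤ → ℤ_[p])), t ^ p = 1 → t = 1

theorem noT_of_noTorsion (p : ℕ) [Fact p.Prime] {G : Type} [Group G] {n : ℕ}
    (M : G → Matrix (Fin n) (Fin n) ℤ) (h : NoTorsion p M)
    (φ : G →* (Matrix (Fin n) (Fin n) ℤ_[p])ˣ)
    (hφ : ∀ g, ((φ g : (Matrix (Fin n) (Fin n) ℤ_[p])ˣ) : Matrix (Fin n) (Fin n) ℤ_[p]) =
      (M g).map (Int.cast : ℤ → ℤ_[p])) : NoT p φ := by
  intro t ht htp
  refine h t ?_ htp
  choose g a hga using ht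
  refine mem_closure_of_tendsto (b := Filter.atTop)
    (f := fun j => (M (g j)).map (Int.cast : ℤ → ℤ_[p])) ?_
    (Filter.Eventually.of_forall fun j => ⟨g j, rfl⟩)
  refine tendsto_pi_nhds.2 fun i => tendsto_pi_nhds.2 fun i' => ?_
  rw [tendsto_iff_norm_sub_tendsto_zero]
  have hp1 : (1 : ℝ) < p := by exact_mod_cast (Fact.out : p.Prime).one_lt
  refine squeeze_zero (fun j => norm_nonneg _) (fun j => ?_)
    (tendsto_pow_atTop_nhds_zero_of_lt_one (r := ((p : ℝ)⁻¹)) (by positivity)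
      (inv_lt_one_of_one_lt₀ hp1))
  have h1 := congrFun (congrFun (hga j) i) i'
  rw [hφ, Matrix.add_apply] at h1
  have h3 : ((p : Matrix (Fin n) (Fin n) ℤ_[p]) ^ j * a j) i i' = (p : ℤ_[p]) ^ j * a j i i' := by
    rw [← Nat.cast_pow, ← nsmul_eq_mul, Matrix.smul_apply, nsmul_eq_mul, Nat.cast_pow]
  rw [h3] at h1
  rw [h1, add_sub_cancel_left, norm_mul, PadicInt.norm_p_pow, zpow_neg, zpow_natCast, inv_pow]
  exact mul_le_of_le_one_right (by positivity) (PadicInt.norm_le_one _)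

section act
variable {N : Type} [Group N] {n : ℕ} (e : Abelianization N ≃* Multiplicative (Fin n → ℤ))

theorem abM_eq (h : MulAut N) (M : Matrix (Fin n) (Fin n) ℤ)
    (hM : ∀ x : N, Multiplicative.toAdd (e (Abelianization.of (h x))) =
      M.mulVec (Multiplicative.toAdd (e (Abelianization.of x)))) : abM e h = M := by
  have h1 : abL e h = Matrix.toLin' M := by
    refine LinearMap.ext fun v => ?_
    obtain ⟨x, hx⟩ := QuotientGroup.mk_surjective (s := commutator N)
      (e.symm (Multiplicative.ofAdd v))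
    have hx' : Multiplicative.toAdd (e (Abelianization.of x)) = v := by
      have : Abelianization.of x = e.symm (Multiplicative.ofAdd v) := hx
      rw [this, MulEquiv.apply_symm_apply, toAdd_ofAdd]
    rw [← hx', abL_of, hM x, Matrix.toLin'_apply]
  change LinearMap.toMatrix' (abL e h) = M
  rw [h1, LinearMap.toMatrix'_toLin']

theorem GR.act (p : ℕ) [Fact p.Prime] (hN : RTFN N) {G : Type} [Group G]
    (α : G →* MulAut N) (hα : Function.Injective α) (M : G → Matrix (Fin n) (Fin n) ℤ)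
    (hM : ∀ g x, Multiplicative.toAdd (e (Abelianization.of (α g x))) =
      (M g).mulVec (Multiplicative.toAdd (e (Abelianization.of x)))) (h : NoTorsion p M) :
    GR p 1 G := by
  have hFG := fg_ab e
  have h0 : NoT p ((abG e p).comp α) := noT_of_noTorsion p M h _ fun g => by
    change (abM e (α g)).map (Int.castRingHom ℤ_[p]) = _
    rw [abM_eq e (α g) (M g) (hM g)]
    rfl
  refine GR.of_noT _ h0 ?_
  intro g hg
  have h1 : ∃ x : N, α g x ≠ x := by
    by_contra hcon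
    push Not at hcon
    apply hg
    apply hα
    rw [map_one]
    exact MulEquiv.ext hcon
  obtain ⟨x, hx⟩ := h1
  obtain ⟨K, hK⟩ := dim_of_rtfn ℚ_[p] N hN (α g x * x⁻¹) (by
    intro h
    exact hx (mul_inv_eq_one.1 h))
  obtain ⟨B, i1, i2, i3, i4, ψ, h2, h3⟩ := exists_rep p N K
  refine ⟨2, B, i1, i2, i3, i4, ψ.comp α, ?_, ?_⟩
  · intro h hh
    exact h2 _ (trivAb_of e p _ hh)
  · intro h
    apply hK
    have h4 := aug_mul _ K _ x⁻¹ (h3 _ h x)
    rw [sub_mul, ← map_mul, ← map_mul, mul_inv_cancel, map_one] at h4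
    exact h4

theorem GR.outer (p : ℕ) [Fact p.Prime] (n : ℕ) {G : Type} [Group G]
    (α : G →* (MulAut (FreeGroup (Fin n)) ⧸ innS (FreeGroup (Fin n))))
    (hα : Function.Injective α) (M : G → Matrix (Fin n) (Fin n) ℤ)
    (hM : ∀ g (h : MulAut (FreeGroup (Fin n))), α g = QuotientGroup.mk h → ∀ x,
      Multiplicative.toAdd (eF n (Abelianization.of (h x))) =
        (M g).mulVec (Multiplicative.toAdd (eF n (Abelianization.of x)))) (h : NoTorsion p M) :
    GR p 1 G := by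
  have hFG := fg_ab (eF n)
  have h0 : NoT p ((outG p (eF n)).comp α) := noT_of_noTorsion p M h _ fun g => by
    obtain ⟨h, hh⟩ := QuotientGroup.mk_surjective (α g)
    rw [MonoidHom.comp_apply, ← hh]
    change (abM (eF n) h).map (Int.castRingHom ℤ_[p]) = _
    rw [abM_eq (eF n) h (M g) (hM g h hh.symm)]
    rfl
  refine GR.of_noT _ h0 ?_
  intro g hg
  obtain ⟨h, hh⟩ := QuotientGroup.mk_surjective (α g)
  have h1 : ¬ ∃ y, h = MulAut.conj y := by
    rintro ⟨y, rfl⟩
    apply hg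
    apply hα
    rw [map_one, ← hh, QuotientGroup.eq_one_iff]
    exact ⟨y, rfl⟩
  have h2 : ∃ (K : ℕ) (x : FreeGroup (Fin n)),
      MonoidAlgebra.of ℚ_[p] _ (h x) - MonoidAlgebra.of ℚ_[p] _ x ∉
        (aug ℚ_[p] (FreeGroup (Fin n))) ^ (K + 1) ⊔ cm ℚ_[p] (FreeGroup (Fin n)) := by
    by_contra hcon
    push Not at hcon
    exact h1 (inner_of_cyc ℚ_[p] n h hcon)
  obtain ⟨K, x, hKx⟩ := h2
  obtain ⟨B, i1, i2, i3, i4, ψ, h3, h4, h5⟩ := exists_rep_out p (FreeGroup (Fin n)) K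
  refine ⟨2, B, i1, i2, i3, i4, (QuotientGroup.lift (innS (FreeGroup (Fin n))) ψ (by
    rintro _ ⟨y, rfl⟩
    exact h4 y)).comp α, ?_, ?_⟩
  · intro g' hg'
    obtain ⟨h', hh'⟩ := QuotientGroup.mk_surjective (α g')
    rw [MonoidHom.comp_apply, ← hh', QuotientGroup.lift_mk]
    apply h3
    apply trivAb_of (eF n) p
    obtain ⟨a, ha⟩ := hg'
    refine ⟨a, ?_⟩
    rw [← ha]
    change _ = ((outG p (eF n) (α g') : (Matrix (Fin n) (Fin n) ℤ_[p])ˣ) :
      Matrix (Fin n) (Fin n) ℤ_[p])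
    rw [← hh']
    rfl
  · intro h6
    rw [MonoidHom.comp_apply, ← hh, QuotientGroup.lift_mk] at h6
    exact hKx (h5 h h6 x)

end act

/-- the condition on the denominator -/
def Denom {G : Type} (n d : ℕ) (M : G → Matrix (Fin n) (Fin n) ℤ) : Prop :=
  0 < d ∧ ∀ (p : ℕ) [Fact p.Prime], p ≤ n + 1 →
    NoTorsion p M ∨ p ^ (n / (p - 1)) * (n / (p - 1)).factorial ∣ d

theorem CR.of_denom {G : Type} [Group G] {n d : ℕ} (M : G → Matrix (Fin n) (Fin n) ℤ)
    (hd : Denom n d M) (h1 : ∀ (p : ℕ) [Fact p.Prime], NoTorsion p M → GR p 1 G)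
    (h2 : ∀ (p : ℕ) [Fact p.Prime], GR p (cc p n) G) : CR G d := by
  refine ⟨hd.1, fun p hp => ?_⟩
  have hp1 : ¬ p ∣ 1 := (Fact.out : p.Prime).one_lt.ne' ∘ Nat.dvd_one.1
  by_cases hpn : p ≤ n + 1
  · rcases hd.2 p hpn with h | h
    · exact ⟨1, h1 p h, 1, hp1, by simp⟩
    · exact ⟨cc p n, h2 p, 1, hp1, by rw [one_mul]; exact h⟩
  · refine ⟨cc p n, h2 p, 1, hp1, ?_⟩
    have : n / (p - 1) = 0 := Nat.div_eq_of_lt (by omega)
    rw [cc, this]
    simp

end Pool.Agent.H320.TF
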