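import Pool.Agent.H371.SB.U12

/-!
helper320: groups whose `p`-adic closures have no elements of order `p`.
-/

set_option autoImplicit false

namespace Pool.Agent.H320.TF

open Pool.Agent.H371.SA Pool.Agent.H371.SB
open Pool.Agent.H371.SA.Nx

section local_part
variable {p : ℕ} [hp : Fact p.Prime] {A : Type} [Ring A] [Algebra ℤ_[p] A]
  [Module.Free ℤ_[p] A] [Module.Finite ℤ_[p] A] {G : Type} [Group G] (φ : G →* Aˣ)

/-- `t` is in the `p`-adic closure of the image of `φ` -/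
def Lim (p : ℕ) {A : Type} [Ring A] {G : Type} [Group G] (φ : G →* Aˣ) (t : A) : Prop :=
  ∀ j : ℕ, ∃ (g : G) (a : A), ((φ g : Aˣ) : A) = t + (p : A) ^ j * a

/-- the closure has no element of order `p` -/
def NoT (p : ℕ) {A : Type} [Ring A] {G : Type} [Group G] (φ : G →* Aˣ) : Prop :=
  ∀ t : A, Lim p φ t → t ^ p = 1 → t = 1

theorem exists_level (h : NoT p φ) : ∃ m : ℕ, 2 ≤ m ∧ ∀ g : G,
    (∃ a : A, ((φ g : Aˣ) : A) ^ p = 1 + (p : A) ^ m * a) →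
      ∃ a : A, ((φ g : Aˣ) : A) = 1 + (p : A) ^ 2 * a := by
  by_contra hcon
  push Not at hcon
  have hcon' : ∀ m : ℕ, ∃ g : G, (∃ a : A, ((φ g : Aˣ) : A) ^ p = 1 + (p : A) ^ m * a) ∧
      ¬ ∃ a : A, ((φ g : Aˣ) : A) = 1 + (p : A) ^ 2 * a := by
    intro m
    obtain ⟨g, ⟨a, ha⟩, hg⟩ := hcon (m + 2) (by omega)
    refine ⟨g, ⟨(p : A) ^ 2 * a, ?_⟩, ?_⟩
    · rw [ha, pow_add, mul_assoc]
    · rintro ⟨b, hb⟩
      exact hg b hb
  choose g hg1 hg2 using hcon'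
  obtain ⟨l, ψ, hψ, hl⟩ := subseq (p := p) (fun n => ((φ (g n) : Aˣ) : A))
  have hlt : l ^ p = 1 := by
    have : l ^ p - 1 = 0 := by
      apply sep (p := p)
      intro j
      obtain ⟨n₀, hn₀⟩ := hl j
      obtain ⟨a, ha⟩ := hn₀ (max n₀ j) (le_max_left _ _)
      obtain ⟨b, hb⟩ := pow_congr j _ _ a ha p
      obtain ⟨c, hc⟩ := hg1 (ψ (max n₀ j))
      have hj : j ≤ ψ (max n₀ j) := (le_max_right n₀ j).trans (hψ.id_le _)
      obtain ⟨i, hi⟩ := Nat.exists_eq_add_of_le hj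
      refine ⟨(p : A) ^ i * c - b, ?_⟩
      rw [mul_sub, ← mul_assoc, ← pow_add, ← hi]
      rw [hc] at hb
      have : l ^ p - 1 = (1 + (p : A) ^ ψ (max n₀ j) * c) - (p : A) ^ j * b - 1 := by
        rw [hb]; abel
      rw [this]; abel
    exact sub_eq_zero.1 this
  have hl1 : l = 1 := by
    apply h l _ hlt
    intro j
    obtain ⟨n₀, hn₀⟩ := hl j
    exact ⟨g (ψ n₀), hn₀ n₀ le_rfl⟩
  obtain ⟨n₀, hn₀⟩ := hl 2
  obtain ⟨a, ha⟩ := hn₀ n₀ le_rfl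
  rw [hl1] at ha
  exact hg2 _ ⟨a, ha⟩

/-- the elements which are congruent to elements of the image -/
def near (p : ℕ) (m : ℕ) {A : Type} [Ring A] {G : Type} [Group G] (φ : G →* Aˣ) :
    Subgroup Aˣ where
  carrier := {u | ∃ (g : G) (a : A), (u : A) = ((φ g : Aˣ) : A) + (p : A) ^ m * a}
  one_mem' := ⟨1, 0, by simp⟩
  mul_mem' := by
    rintro u v ⟨g, a, ha⟩ ⟨h, b, hb⟩
    refine ⟨g * h, ((φ g : Aˣ) : A) * b + a * ((φ h : Aˣ) : A) + a * ((p : A) ^ m * b), ?_⟩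
    rw [Units.val_mul, ha, hb, map_mul, Units.val_mul, add_mul, mul_add, mul_add, mul_add, mul_add,
      ← mul_assoc ((φ g : Aˣ) : A), ((Nat.cast_commute p ((φ g : Aˣ) : A)).pow_left m).symm.eq,
      mul_assoc, mul_assoc, mul_assoc, add_assoc, add_assoc]
  inv_mem' := by
    rintro u ⟨g, a, ha⟩
    refine ⟨g⁻¹, -(((u⁻¹ : Aˣ) : A) * a * ((φ g⁻¹ : Aˣ) : A)), ?_⟩
    have h1 : ((φ g⁻¹ : Aˣ) : A) = ((u⁻¹ : Aˣ) : A) * (u : A) * ((φ g⁻¹ : Aˣ) : A) := by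
      rw [Units.inv_mul, one_mul]
    have h2 : ((φ g : Aˣ) : A) * ((φ g⁻¹ : Aˣ) : A) = 1 := by
      rw [← Units.val_mul, ← map_mul, mul_inv_cancel, map_one, Units.val_one]
    have h3 : (p : A) ^ m * (((u⁻¹ : Aˣ) : A) * a * ((φ g⁻¹ : Aˣ) : A)) =
        ((u⁻¹ : Aˣ) : A) * ((p : A) ^ m * a) * ((φ g⁻¹ : Aˣ) : A) := by
      rw [← mul_assoc, ← mul_assoc, ← mul_assoc,
        ((Nat.cast_commute p ((u⁻¹ : Aˣ) : A)).pow_left m).eq]
    rw [mul_neg, h3]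
    have h4 : (p : A) ^ m * a = (u : A) - ((φ g : Aˣ) : A) := by rw [ha]; abel
    rw [h4, mul_sub, sub_mul, Units.inv_mul, one_mul, mul_assoc, h2, mul_one]
    abel

theorem near_torsion_free (m : ℕ) (hm : 2 ≤ m) (hlev : ∀ g : G,
    (∃ a : A, ((φ g : Aˣ) : A) ^ p = 1 + (p : A) ^ m * a) →
      ∃ a : A, ((φ g : Aˣ) : A) = 1 + (p : A) ^ 2 * a) (u : Aˣ) (hu : u ∈ near p m φ)
    (hup : u ^ p = 1) : u = 1 := by
  obtain ⟨g, a, ha⟩ := hu
  obtain ⟨i, hi⟩ := Nat.exists_eq_add_of_le hm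
  have h1 : ((φ g : Aˣ) : A) = (u : A) + (p : A) ^ m * (-a) := by rw [ha, mul_neg]; abel
  obtain ⟨b, hb⟩ := pow_congr m _ _ _ h1 p
  have hup' : (u : A) ^ p = 1 := by rw [← Units.val_pow_eq_pow_val, hup, Units.val_one]
  rw [hup'] at hb
  obtain ⟨c, hc⟩ := hlev g ⟨b, hb⟩
  apply Units.ext
  rw [Units.val_one]
  refine torsion_free p A 2 ?_ (u : A) (c + (p : A) ^ i * a) ?_ p hp.out.pos hup'
  · have := hp.out.two_le
    nlinarith
  · rw [ha, hc, mul_add, ← mul_assoc, ← pow_add, ← hi]; abel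

theorem near_ppower (m : ℕ) (hm : 2 ≤ m) (hlev : ∀ g : G,
    (∃ a : A, ((φ g : Aˣ) : A) ^ p = 1 + (p : A) ^ m * a) →
      ∃ a : A, ((φ g : Aˣ) : A) = 1 + (p : A) ^ 2 * a) (n : ℕ) : ∀ (u : Aˣ), u ∈ near p m φ →
    u ^ (p ^ n) = 1 → u = 1 := by
  induction n with
  | zero => intro u _ h; simpa using h
  | succ n ih =>
    intro u hu h
    rw [pow_succ, pow_mul] at h
    exact ih u hu (near_torsion_free φ m hm hlev _ (pow_mem hu _) h)

theorem GR.of_noT (h : NoT p φ)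
    (hres : ∀ g : G, g ≠ 1 → ∃ (l : ℕ) (B : Type) (_ : Ring B) (_ : Algebra ℤ_[p] B)
      (_ : Module.Free ℤ_[p] B) (_ : Module.Finite ℤ_[p] B) (ψ : G →* Bˣ),
      (∀ h : G, (∃ a : A, ((φ h : Aˣ) : A) = 1 + (p : A) ^ l * a) →
        ∃ b : B, (ψ h : B) = 1 + (p : B) ^ 2 * b) ∧ ψ g ≠ 1) : GR p 1 G := by
  obtain ⟨m, hm, hlev⟩ := exists_level φ h
  have hp1 : 1 < p := hp.out.one_lt
  have hmem : ∀ g : G, φ g ∈ near p m φ := fun g => ⟨g, 0, by simp⟩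
  refine ⟨A, inferInstance, inferInstance, inferInstance, inferInstance, near p m φ, m,
    φ.codRestrict (near p m φ) hmem, fun _ => ((1 : ℤ) : ℤ_[p]), ?_, ?_, AC.const _ _ 1, ?_, ?_, ?_⟩
  · calc 2 < p ^ 2 := by nlinarith
      _ ≤ p ^ m := Nat.pow_le_pow_right hp.out.pos hm
  · rintro u ⟨a, ha⟩
    exact ⟨1, a, by rw [ha, map_one, Units.val_one]⟩
  · simp
  · intro t ht a hta
    exfalso
    apply ht
    apply Subtype.ext
    refine near_ppower φ m hm hlev a (t : Aˣ) t.2 ?_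
    have := congrArg Subtype.val hta
    rwa [SubmonoidClass.coe_pow] at this
  · intro g hg
    obtain ⟨l, B, i1, i2, i3, i4, ψ, h1, h2⟩ := hres g hg
    exact ⟨l, B, i1, i2, i3, i4, ψ, fun h hh => h1 h hh, h2⟩

end local_part

end Pool.Agent.H320.TF
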