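import Pool.Agent.H320.TF.Act

/-!
helper320: unit groups of orders of odd rank without zero divisors over small `ℤ_p`.
-/

set_option autoImplicit false

namespace Pool.Agent.H320.TF

open Pool.Agent.H371.SA Pool.Agent.H371.SB
open scoped TensorProduct

/-- a matrix with `1 + t + ⋯ + t ^ (p - 1) = 0` over the `p`-adic integers has size divisible by
`p - 1` -/
theorem dvd_of_geom (p : ℕ) [Fact p.Prime] (N : ℕ) (t : Matrix (Fin N) (Fin N) ℤ_[p])
    (hN : 0 < N) (h : ∑ i ∈ Finset.range p, t ^ i = 0) : p - 1 ∣ N := by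
  have hp : p.Prime := Fact.out
  have htp : t ^ p = 1 := by
    have h1 := geom_sum_mul t p
    rw [h, zero_mul] at h1
    exact (sub_eq_zero.1 h1.symm)
  have hne : ∀ i ∈ Finset.Ico 1 p, t ^ i ≠ 1 := by
    intro i hi h1
    obtain ⟨hi1, hi2⟩ := Finset.mem_Ico.1 hi
    have hco : Nat.Coprime i p :=
      ((Nat.Prime.coprime_iff_not_dvd hp).2 (Nat.not_dvd_of_pos_of_lt (by omega) hi2)).symm
    have ht1 : t = 1 := by
      have h2 : orderOf t ∣ Nat.gcd i p :=
        Nat.dvd_gcd (orderOf_dvd_of_pow_eq_one h1) (orderOf_dvd_of_pow_eq_one htp)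
      rw [hco] at h2
      exact orderOf_eq_one_iff.1 (Nat.dvd_one.1 h2)
    rw [ht1] at h
    simp only [one_pow, Finset.sum_const, Finset.card_range] at h
    have h3 := congrFun (congrFun h ⟨0, hN⟩) ⟨0, hN⟩
    rw [Matrix.smul_apply, Matrix.one_apply_eq, Matrix.zero_apply, nsmul_eq_mul, mul_one] at h3
    exact hp.ne_zero (by exact_mod_cast h3)
  have hk : ∀ i ∈ Finset.Ico 1 p, ∃ k : ℕ, k * (p - 1) ≤ N ∧
      (t ^ i).trace = (N : ℤ_[p]) - p * k := by
    intro i hi
    obtain ⟨k, -, h2, h3⟩ := trace_torsion p N (t ^ i) 1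
      (by rw [pow_one, ← pow_mul, mul_comm, pow_mul, htp, one_pow]) (hne i hi)
    exact ⟨k, h2, h3⟩
  choose! k hk1 hk2 using hk
  have h0 : (∑ i ∈ Finset.range p, t ^ i).trace = 0 := by rw [h, Matrix.trace_zero]
  rw [Matrix.trace_sum, ← Finset.sum_range_add_sum_Ico _ hp.one_lt.le, Finset.sum_range_one,
    pow_zero, Matrix.trace_one, Fintype.card_fin, Finset.sum_congr rfl hk2,
    Finset.sum_sub_distrib, Finset.sum_const, Nat.card_Ico, ← Finset.mul_sum] at h0
  have h4 : ((p * N : ℕ) : ℤ_[p]) = ((p * ∑ i ∈ Finset.Ico 1 p, k i : ℕ) : ℤ_[p]) := by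
    push_cast
    rw [nsmul_eq_mul, Nat.cast_sub hp.one_lt.le, Nat.cast_one] at h0
    linear_combination h0
  have h5 : N = ∑ i ∈ Finset.Ico 1 p, k i := Nat.eq_of_mul_eq_mul_left hp.pos (by exact_mod_cast h4)
  -- all `k i` are equal to `N / (p - 1)`
  have h6 : ∀ i ∈ Finset.Ico 1 p, k i ≤ N / (p - 1) := fun i hi =>
    (Nat.le_div_iff_mul_le (by have := hp.two_le; omega)).2 (hk1 i hi)
  have h7 : ∑ i ∈ Finset.Ico 1 p, k i ≤ (p - 1) * (N / (p - 1)) := by
    calc ∑ i ∈ Finset.Ico 1 p, k i ≤ ∑ i ∈ Finset.Ico 1 p, N / (p - 1) := Finset.sum_le_sum h6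
      _ = (p - 1) * (N / (p - 1)) := by rw [Finset.sum_const, Nat.card_Ico, smul_eq_mul]
  exact ⟨N / (p - 1), le_antisymm (h5.trans_le h7) (Nat.mul_div_le _ _)⟩

section order
variable {R : Type} [Ring R] {N : ℕ} (e : R ≃+ (Fin N → ℤ))

/-- the basis -/
noncomputable def bas : Module.Basis (Fin N) ℤ R := Module.Basis.ofEquivFun e.toIntLinearEquiv

/-- the matrix of the left multiplication -/
noncomputable def lm (r : R) : Matrix (Fin N) (Fin N) ℤ :=
  LinearMap.toMatrix (bas e) (bas e) (LinearMap.mulLeft ℤ r)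

/-- the matrix of the right multiplication -/
noncomputable def rm (r : R) : Matrix (Fin N) (Fin N) ℤ :=
  LinearMap.toMatrix (bas e) (bas e) (LinearMap.mulRight ℤ r)

theorem lm_rm (r s : R) : lm e r * rm e s = rm e s * lm e r := by
  unfold lm rm
  rw [← LinearMap.toMatrix_comp, ← LinearMap.toMatrix_comp]
  congr 1
  refine LinearMap.ext fun x => ?_
  simp [mul_assoc]

theorem det_lm (r : R) : (lm e r).det = LinearMap.det (LinearMap.mulLeft ℤ r) :=
  LinearMap.det_toMatrix _ _

variable (p : ℕ) [Fact p.Prime]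

theorem noTorsion_order (hN : Odd N) (hdom : NoZeroDivisors (ℤ_[p] ⊗[ℤ] R)) {G : Type} (φ : G → R)
    (hdet : ∀ g, LinearMap.det (LinearMap.mulLeft ℤ (φ g)) = 1) :
    NoTorsion p (fun g => lm e (φ g)) := by
  have hp : p.Prime := Fact.out
  have hN0 : 0 < N := hN.pos
  intro t ht htp
  -- the closed conditions
  have h1 : (∀ s : R, t * (rm e s).map (Int.cast : ℤ → ℤ_[p]) =
      (rm e s).map (Int.cast : ℤ → ℤ_[p]) * t) ∧ t.det = 1 := by
    refine closure_minimal (t := {t : Matrix (Fin N) (Fin N) ℤ_[p] |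
      (∀ s : R, t * (rm e s).map (Int.cast : ℤ → ℤ_[p]) =
        (rm e s).map (Int.cast : ℤ → ℤ_[p]) * t) ∧ t.det = 1}) ?_ ?_ ht
    · rintro _ ⟨g, rfl⟩
      constructor
      · intro s
        have h2 := congrArg (fun M : Matrix (Fin N) (Fin N) ℤ => M.map (Int.castRingHom ℤ_[p]))
          (lm_rm e (φ g) s)
        simp only [Matrix.map_mul] at h2
        exact h2
      · change ((lm e (φ g)).map (Int.castRingHom ℤ_[p])).det = 1
        have h2 := (Int.castRingHom ℤ_[p]).map_det (lm e (φ g))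
        rw [RingHom.mapMatrix_apply] at h2
        rw [← h2, det_lm, hdet, map_one]
    · refine IsClosed.inter ?_ ?_
      · have : {t : Matrix (Fin N) (Fin N) ℤ_[p] | ∀ s : R,
            t * (rm e s).map (Int.cast : ℤ → ℤ_[p]) =
              (rm e s).map (Int.cast : ℤ → ℤ_[p]) * t} = ⋂ s : R,
            {t : Matrix (Fin N) (Fin N) ℤ_[p] | t * (rm e s).map (Int.cast : ℤ → ℤ_[p]) =
              (rm e s).map (Int.cast : ℤ → ℤ_[p]) * t} := by
          ext t; simp
        change IsClosed {t : Matrix (Fin N) (Fin N) ℤ_[p] | ∀ s : R,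
            t * (rm e s).map (Int.cast : ℤ → ℤ_[p]) =
              (rm e s).map (Int.cast : ℤ → ℤ_[p]) * t}
        rw [this]
        exact isClosed_iInter fun s => isClosed_eq (continuous_id.matrix_mul continuous_const)
          (continuous_const.matrix_mul continuous_id)
      · exact isClosed_eq continuous_id.matrix_det continuous_const
  obtain ⟨hcomm, hdt⟩ := h1
  -- the linear map
  set B : Module.Basis (Fin N) ℤ_[p] (ℤ_[p] ⊗[ℤ] R) :=
    Algebra.TensorProduct.basis ℤ_[p] (bas e) with hB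
  set T : (ℤ_[p] ⊗[ℤ] R) →ₗ[ℤ_[p]] (ℤ_[p] ⊗[ℤ] R) := Matrix.toLin B B t with hT
  have hrm : ∀ s : R, LinearMap.toMatrix B B ((LinearMap.mulRight ℤ s).baseChange ℤ_[p]) =
      (rm e s).map (Int.cast : ℤ → ℤ_[p]) := by
    intro s
    rw [hB, LinearMap.toMatrix_baseChange]
    rfl
  have hTc : ∀ (s : R) (v : ℤ_[p] ⊗[ℤ] R), T ((LinearMap.mulRight ℤ s).baseChange ℤ_[p] v) =
      (LinearMap.mulRight ℤ s).baseChange ℤ_[p] (T v) := by
    intro s v
    have h2 : T ∘ₗ ((LinearMap.mulRight ℤ s).baseChange ℤ_[p]) =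
        ((LinearMap.mulRight ℤ s).baseChange ℤ_[p]) ∘ₗ T := by
      apply (LinearMap.toMatrix B B).injective
      rw [LinearMap.toMatrix_comp B B B, LinearMap.toMatrix_comp B B B, hrm, hT,
        LinearMap.toMatrix_toLin, hcomm]
    exact LinearMap.congr_fun h2 v
  have hmr : ∀ (s : R) (v : ℤ_[p] ⊗[ℤ] R), (LinearMap.mulRight ℤ s).baseChange ℤ_[p] v =
      v * ((1 : ℤ_[p]) ⊗ₜ[ℤ] s) := by
    intro s v
    induction v with
    | zero => simp
    | tmul c r => simp
    | add x y hx hy => rw [map_add, hx, hy, add_mul]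
  set x : ℤ_[p] ⊗[ℤ] R := T 1 with hx
  have hTx : ∀ v, T v = x * v := by
    intro v
    induction v with
    | zero => simp
    | tmul c r =>
      have h2 := hTc r 1
      rw [hmr, hmr, one_mul, ← hx] at h2
      have h3 : (c ⊗ₜ[ℤ] r : ℤ_[p] ⊗[ℤ] R) = c • ((1 : ℤ_[p]) ⊗ₜ[ℤ] r) := by
        rw [TensorProduct.smul_tmul', smul_eq_mul, mul_one]
      rw [h3, map_smul, h2, mul_smul_comm]
    | add x y hx hy => rw [map_add, hx, hy, mul_add]
  have hpow : ∀ (i : ℕ) (v : ℤ_[p] ⊗[ℤ] R), (Matrix.toLin B B (t ^ i)) v = x ^ i * v := by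
    intro i
    induction i with
    | zero => intro v; rw [pow_zero, pow_zero, Matrix.toLin_one, one_mul]; rfl
    | succ i ih =>
      intro v
      rw [pow_succ, Matrix.toLin_mul B B B, LinearMap.comp_apply, ← hT, hTx, ih, pow_succ,
        mul_assoc]
  have hxp : x ^ p = 1 := by
    have h2 := hpow p 1
    rw [htp, Matrix.toLin_one, mul_one] at h2
    exact h2.symm
  have h2 : (∑ i ∈ Finset.range p, x ^ i) * (x - 1) = 0 := by
    rw [geom_sum_mul, hxp, sub_self]
  rcases mul_eq_zero.1 h2 with h3 | h3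
  · exfalso
    have h4 : ∑ i ∈ Finset.range p, t ^ i = 0 := by
      apply (Matrix.toLin B B).injective
      rw [map_sum, map_zero]
      refine LinearMap.ext fun v => ?_
      rw [LinearMap.sum_apply, LinearMap.zero_apply]
      simp only [hpow]
      rw [← Finset.sum_mul, h3, zero_mul]
    have h5 := dvd_of_geom p N t hN0 h4
    rcases hp.eq_two_or_odd' with rfl | hodd
    · rw [Finset.sum_range_succ, Finset.sum_range_one, pow_zero, pow_one] at h4
      have h6 : t = -1 := by rw [← sub_eq_zero, sub_neg_eq_add, add_comm]; exact h4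
      rw [h6, Matrix.det_neg, Fintype.card_fin, hN.neg_one_pow, Matrix.det_one, mul_one] at hdt
      have h7 : (2 : ℤ_[2]) = 0 := by linear_combination -hdt
      exact two_ne_zero h7
    · obtain ⟨a, ha⟩ := hodd
      obtain ⟨b, hb⟩ := h5
      obtain ⟨c, hc⟩ := hN
      have : p - 1 = 2 * a := by omega
      rw [this] at hb
      have : N = 2 * (a * b) := by rw [hb]; ring
      omega
  · have h4 : x = 1 := sub_eq_zero.1 h3
    apply (Matrix.toLin B B).injective
    rw [Matrix.toLin_one]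
    refine LinearMap.ext fun v => ?_
    change T v = v
    rw [hTx, h4, one_mul]

end order

end Pool.Agent.H320.TF
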